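import Mathlib
import Pool.Agent.S01687

/-!
# The permanent-on-top conjecture for 4x4 matrices (own statement)

For every complex positive semidefinite 4x4 matrix `A` the largest element of the spectrum of the
24x24 Schur power matrix is the permanent of `A`; in the Loewner order the Schur power matrix is
at most `per A` times the identity.
-/

set_option autoImplicit false

open Matrix
open scoped ComplexOrder

namespace Pool.Agent.Results.MP_61cf81_al.PermanentOnTop

/-- The Schur power matrix of a square matrix: rows and columns are indexed by the permutations of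
the index set, and the entry at `(σ, τ)` is the product over `t` of `A (σ t) (τ t)`. -/
def schurPower {n : ℕ} (A : Matrix (Fin n) (Fin n) ℂ) :
    Matrix (Equiv.Perm (Fin n)) (Equiv.Perm (Fin n)) ℂ :=
  Matrix.of fun σ τ => ∏ t : Fin n, A (σ t) (τ t)

lemma schurPower_isHermitian {n : ℕ} {A : Matrix (Fin n) (Fin n) ℂ} (hA : A.IsHermitian) :
    (schurPower A).IsHermitian := by
  ext σ τ
  simp only [schurPower, Matrix.conjTranspose_apply, Matrix.of_apply, star_prod]
  exact Finset.prod_congr rfl fun t _ => hA.apply _ _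

lemma star_permanent {n : ℕ} {A : Matrix (Fin n) (Fin n) ℂ} (hA : A.IsHermitian) :
    star A.permanent = A.permanent := by
  conv_rhs => rw [← Matrix.permanent_transpose]
  simp only [Matrix.permanent, star_sum, star_prod, Matrix.transpose_apply]
  exact Finset.sum_congr rfl fun σ _ => Finset.prod_congr rfl fun t _ => hA.apply _ _

lemma mulVec_one (A : Matrix (Fin 4) (Fin 4) ℂ) (hA : A.PosSemidef) :
    (schurPower A).mulVec (fun _ => (1 : ℂ)) = A.permanent • (fun _ => (1 : ℂ)) :=
  (Pool.Agent.S01687.result A hA).1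

lemma loewner (A : Matrix (Fin 4) (Fin 4) ℂ) (hA : A.PosSemidef) :
    (A.permanent • (1 : Matrix (Equiv.Perm (Fin 4)) (Equiv.Perm (Fin 4)) ℂ) -
      schurPower A).PosSemidef := by
  have hH : (A.permanent • (1 : Matrix (Equiv.Perm (Fin 4)) (Equiv.Perm (Fin 4)) ℂ) -
      schurPower A).IsHermitian := by
    refine Matrix.IsHermitian.sub ?_ (schurPower_isHermitian hA.isHermitian)
    rw [Matrix.IsHermitian, Matrix.conjTranspose_smul, Matrix.conjTranspose_one,
      star_permanent hA.isHermitian]
  refine Matrix.PosSemidef.of_dotProduct_mulVec_nonneg hH fun x => ?_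
  have h1 := Pool.Agent.Lib.MP_61cf81_al.QK_main hA x
  rw [Pool.Agent.S01687.form_eq] at h1
  have h2 : star x ⬝ᵥ ((A.permanent • (1 : Matrix (Equiv.Perm (Fin 4)) (Equiv.Perm (Fin 4)) ℂ) -
      schurPower A) *ᵥ x) = A.permanent * (∑ σ, (starRingEnd ℂ) (x σ) * x σ) -
      ∑ σ, (starRingEnd ℂ) (x σ) * ((Matrix.of (fun (σ : Equiv.Perm (Fin 4))
        (τ : Equiv.Perm (Fin 4)) => ∏ t : Fin 4, A (σ t) (τ t))).mulVec x) σ := by
    rw [Matrix.sub_mulVec, dotProduct_sub, Matrix.smul_mulVec, Matrix.one_mulVec, dotProduct_smul]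
    rfl
  have h3 : (star x ⬝ᵥ ((A.permanent • (1 : Matrix (Equiv.Perm (Fin 4)) (Equiv.Perm (Fin 4)) ℂ) -
      schurPower A) *ᵥ x)).im = 0 := hH.im_star_dotProduct_mulVec_self x
  rw [Complex.nonneg_iff]
  exact ⟨by rw [h2]; exact h1, h3.symm⟩

/-- **Permanent on top for 4x4 matrices.** For every complex positive semidefinite 4x4 matrix `A`,
`per A` times the identity minus the 24x24 Schur power matrix is positive semidefinite, and the
largest element of the (real, nonnegative) spectrum of the Schur power matrix is `per A`. -/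
theorem result (A : Matrix (Fin 4) (Fin 4) ℂ) (hA : A.PosSemidef) :
    (A.permanent • (1 : Matrix (Equiv.Perm (Fin 4)) (Equiv.Perm (Fin 4)) ℂ) -
      schurPower A).PosSemidef ∧
    IsGreatest (spectrum ℂ (schurPower A)) A.permanent := by
  have hL := loewner A hA
  refine ⟨hL, ?_, ?_⟩
  · rw [spectrum.mem_iff]
    intro hu
    rw [Algebra.algebraMap_eq_smul_one] at hu
    have h0 : (A.permanent • (1 : Matrix (Equiv.Perm (Fin 4)) (Equiv.Perm (Fin 4)) ℂ) -
        schurPower A) *ᵥ (fun _ => (1 : ℂ)) = 0 := by
      rw [Matrix.sub_mulVec, Matrix.smul_mulVec, Matrix.one_mulVec, mulVec_one A hA, sub_self]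
    have h1 := Matrix.mulVec_injective_of_isUnit hu (h0.trans (Matrix.mulVec_zero _).symm)
    exact one_ne_zero (congrFun h1 1)
  · intro μ hμ
    have h1 : A.permanent - μ ∈ spectrum ℂ
        (A.permanent • (1 : Matrix (Equiv.Perm (Fin 4)) (Equiv.Perm (Fin 4)) ℂ) -
          schurPower A) := by
      rw [← Algebra.algebraMap_eq_smul_one, ← spectrum.singleton_sub_eq]
      exact Set.sub_mem_sub (Set.mem_singleton _) hμ
    have h2 := (Matrix.posSemidef_iff_isHermitian_and_spectrum_nonneg.1 hL).2 h1
    exact sub_nonneg.1 h2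

end Pool.Agent.Results.MP_61cf81_al.PermanentOnTop
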